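import Pool.Agent.NH88.FM.ClaimA
import Pool.Agent.NH88.FM.ClaimB
import Pool.Agent.NH88.FM.Ultra
import Pool.Agent.NH88.FM.Cut
import Pool.Agent.NH88.FM.Sep
import Pool.Agent.NH88.FM.Assembly

/-!
# MP_e18332_lc: modulo-counting quantifiers add power to transductions of graph classes

There are infinite classes `𝒞`, `𝒟` of finite graphs, closed under isomorphism, such that `𝒟` is an
FO+MOD-transduction of `𝒞` but not an FO-transduction of `𝒞`. This is the negated form of Q1, in
full.

The definitions are in `Pool/Agent/NH88/FM/Defs.lean`: `Fml` (formulas of FO+MOD over coloured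
graphs), `Fml.IsFO`, `Sat` (semantics), `Trans` (a transduction: the formulas `ν`, `η`),
`Trans.out`, `Trans.Gives`, `FinGraph`, `Trans.Covers`, `IsoClosed`.

Outline. The classes come from fat forests: graphs with parts 0, 1, 2 in which every vertex of part
1 has one neighbour in part 0; the output graph joins a vertex of part 0 to a vertex of part 2 when
the number of their common neighbours is odd. Claim A (proved with a multi-switching argument): a
first-order transduction does not give the parity graph of every fat forest of large girth and high
density. Claim B (proved with an ultraproduct and small separators): a first-order transduction does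
not give a dense graph without `K_{2,2}` from fat forests of girth large in terms of the graph. The
two claims are put together by diagonalisation.
-/

namespace Pool.Agent.Results.MP_e18332_lc.ModSeparation

open Pool.Agent.NH88.FM

/-- There are infinite isomorphism-closed classes `𝒞`, `𝒟` of finite graphs such that `𝒟` is an
FO+MOD-transduction of `𝒞` and not an FO-transduction of `𝒞`. -/
theorem result : ∃ 𝒞 𝒟 : Set FinGraph, 𝒞.Infinite ∧ 𝒟.Infinite ∧ IsoClosed 𝒞 ∧ IsoClosed 𝒟 ∧
    (∃ (m : ℕ) (T : Trans m), T.Covers 𝒞 𝒟) ∧
    ∀ (m : ℕ) (T : Trans m), T.IsFO → ¬ T.Covers 𝒞 𝒟 :=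
  main_of claimA (claimB_of ultraStmt cutStmt sepStmt) fun _ _ _ h => h.K22Free_parity le_rfl

end Pool.Agent.Results.MP_e18332_lc.ModSeparation
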